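import Pool.Agent.H.MP_a67235_nt.C

namespace Pool.Agent.Results.MP_a67235_nt.No

open Height Filter Finset MvPolynomial Pool.Agent.H.MP_a67235_nt

abbrev Qb := AlgebraicClosure ℚ

/-- a rational coordinate vector seen over the algebraic closure -/
noncomputable def pt (v : Fin 4 → ℚ) : Fin 4 → Qb := fun i => algebraMap ℚ Qb (v i)

/-- the formal `k`-fold composite of the tuple `F` (before cancelling common factors) -/
noncomputable def iter (F : Fin 4 → MvPolynomial (Fin 4) Qb) : ℕ → Fin 4 → MvPolynomial (Fin 4) Qb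
  | 0 => fun i => .X i
  | k + 1 => fun i => aeval (iter F k) (F i)

/-- `u ≍ v` -/
def Asymp (u v : ℕ → ℝ) : Prop :=
  ∃ c₁ > 0, ∃ c₂ > 0, ∀ᶠ n in atTop, c₁ * u n ≤ v n ∧ v n ≤ c₂ * u n

lemma sc {K : Type} [Field K] {G : MvPolynomial (Fin 4) K} {e : ℕ} (h : G.IsHomogeneous e) (t : K)
    (v : Fin 4 → K) : eval (fun i => t * v i) G = t ^ e * eval v G := by
  rw [eval_eq, eval_eq, mul_sum]
  refine sum_congr rfl fun m hm => ?_
  simp only [mul_pow, prod_mul_distrib, prod_pow_eq_pow_sum, ← h.degree_eq_sum_deg_support hm]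
  ring

noncomputable def φ : MvPolynomial (Fin 4) Qb →ₐ[Qb] Polynomial (MvPolynomial (Fin 4) Qb) :=
  aeval fun i => Polynomial.monomial 1 (.X i)

lemma φ_coeff (p : MvPolynomial (Fin 4) Qb) (k : ℕ) :
    (φ p).coeff k = homogeneousComponent k p := by
  induction p using MvPolynomial.induction_on' with
  | add p q hp hq => simp only [map_add, Polynomial.coeff_add, hp, hq]
  | monomial m c =>
    have : ∀ s : Finset (Fin 4), ∏ i ∈ s, Polynomial.monomial 1 (.X i : MvPolynomial (Fin 4) Qb) ^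
        m i = Polynomial.monomial (∑ i ∈ s, m i) (∏ i ∈ s, .X i ^ m i) := fun s => by
      induction s using Finset.induction_on with
      | empty => simp
      | insert a s h ih =>
        rw [prod_insert h, sum_insert h, prod_insert h, ih, Polynomial.monomial_pow,
          Polynomial.monomial_mul_monomial, one_mul]
    rw [φ, aeval_monomial, Finsupp.prod, this, Polynomial.algebraMap_apply,
      Polynomial.C_mul_monomial, Polynomial.coeff_monomial,
      homogeneousComponent_of_mem (isHomogeneous_monomial c rfl), monomial_eq]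
    simp only [eq_comm (a := k)]
    rfl

lemma hom_of {p : MvPolynomial (Fin 4) Qb} (h : (φ p).natDegree ≤ (φ p).natTrailingDegree) :
    p.IsHomogeneous (φ p).natDegree := by
  rw [← sum_homogeneousComponent p]
  refine IsHomogeneous.sum _ _ _ fun k _ => ?_
  rw [sum_homogeneousComponent]
  by_cases e : k = (φ p).natDegree
  · exact e ▸ homogeneousComponent_isHomogeneous _ _
  · rw [← φ_coeff]
    by_cases z : (φ p).coeff k = 0
    · exact z ▸ isHomogeneous_zero _ _ _
    · exact absurd (le_antisymm (Polynomial.le_natDegree_of_ne_zero z)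
        (h.trans (Polynomial.natTrailingDegree_le_of_ne_zero z))) e

lemma factor {g q : MvPolynomial (Fin 4) Qb} {d : ℕ} (h : (g * q).IsHomogeneous d)
    (h0 : g * q ≠ 0) : ∃ e f, e + f = d ∧ g.IsHomogeneous e ∧ q.IsHomogeneous f := by
  classical
  have e : φ g * φ q = Polynomial.monomial d (g * q) := by
    ext1 k
    rw [← map_mul, φ_coeff, homogeneousComponent_of_mem h, Polynomial.coeff_monomial]
    simp only [eq_comm]
  have n : φ g * φ q ≠ 0 := by rw [e]; simpa using h0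
  obtain ⟨a, b⟩ := mul_ne_zero_iff.1 n
  have h1 := Polynomial.natDegree_mul a b
  have h2 := Polynomial.natTrailingDegree_mul a b
  rw [e, Polynomial.natDegree_monomial, if_neg h0] at h1
  rw [e, Polynomial.natTrailingDegree_monomial h0] at h2
  have := (φ g).natTrailingDegree_le_natDegree
  have := (φ q).natTrailingDegree_le_natDegree
  exact ⟨_, _, h1.symm, hom_of (by omega), hom_of (by omega)⟩

noncomputable def app (l : Qb →ₗ[ℚ] ℚ) (G : MvPolynomial (Fin 4) Qb) : MvPolynomial (Fin 4) ℚ :=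
  ∑ m ∈ G.support, monomial m (l (coeff m G))

lemma app_coeff (l : Qb →ₗ[ℚ] ℚ) (G : MvPolynomial (Fin 4) Qb) (m : Fin 4 →₀ ℕ) :
    coeff m (app l G) = l (coeff m G) := by
  simp only [app, coeff_sum, coeff_monomial, sum_ite_eq']
  split_ifs with h
  · rfl
  · rw [notMem_support_iff.1 h, map_zero]

lemma app_hom (l : Qb →ₗ[ℚ] ℚ) {G : MvPolynomial (Fin 4) Qb} {e : ℕ} (h : G.IsHomogeneous e) :
    (app l G).IsHomogeneous e := fun m hm => h fun z => hm (by rw [app_coeff, z, map_zero])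

lemma app_eval (l : Qb →ₗ[ℚ] ℚ) (G : MvPolynomial (Fin 4) Qb) (v : Fin 4 → ℚ) :
    eval v (app l G) = l (eval (pt v) G) := by
  rw [app, map_sum, eval_eq' (pt v), map_sum]
  refine sum_congr rfl fun m _ => ?_
  simp only [pt, ← map_pow, ← map_prod]
  rw [eval_monomial, mul_comm (coeff m G), ← Algebra.smul_def, map_smul, smul_eq_mul, mul_comm,
    Finsupp.prod_fintype _ _ (by simp)]

lemma dens (s : Sq) (m e : ℕ) (G : MvPolynomial (Fin 4) Qb) (h : G.IsHomogeneous e)
    (z : ∀ n ≥ m, eval (pt (s.P n)) G = 0) : G = 0 := by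
  by_contra G0
  obtain ⟨k, hk⟩ := ne_zero_iff.1 G0
  obtain ⟨l, hl⟩ : ∃ l : Qb →ₗ[ℚ] ℚ, l (coeff k G) ≠ 0 := by
    by_contra! a
    exact hk ((Module.forall_dual_apply_eq_zero_iff ℚ _).1 a)
  have ev : ∀ u : Fin 3 → ℚ, eval u (aeval (![1, .X 0, .X 1, .X 2] : Fin 4 → MvPolynomial (Fin 3) ℚ)
      (app l G)) = eval ![1, u 0, u 1, u 2] (app l G) := fun u => by
    rw [← coe_aeval_eq_eval, ← coe_aeval_eq_eval]
    simp only [RingHom.coe_coe, ← AlgHom.comp_apply, comp_aeval]
    congr 2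
    ext i
    fin_cases i <;> simp
  obtain ⟨n, hn, a⟩ := s.den (G := aeval (![1, .X 0, .X 1, .X 2] : Fin 4 → MvPolynomial (Fin 3) ℚ)
    (app l G)) (fun a => by
      have : .X 0 * app l G = 0 := MvPolynomial.funext fun v => by
        rw [map_mul, eval_X, map_zero, mul_eq_zero, or_iff_not_imp_left]
        intro v0
        have b := ev fun i => v i.succ / v 0
        have : v = fun i => v 0 * ![1, v 1 / v 0, v 2 / v 0, v 3 / v 0] i := by
          ext i; fin_cases i <;> simp [mul_div_cancel₀, v0]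
        rw [a, map_zero] at b
        rw [this, sc (app_hom l h)]
        exact mul_eq_zero_of_right _ b.symm
      exact hl (by rw [← app_coeff, (mul_eq_zero.1 this).resolve_left (X_ne_zero _), coeff_zero])) m
  rw [ev] at a
  exact a ((app_eval l G (s.P n)).trans (by rw [z n hn, map_zero]))

lemma deg (s : Sq) {k D : ℕ} (hk : 0 < k) {G : Fin 4 → MvPolynomial (Fin 4) Qb}
    (h : ∀ i, (G i).IsHomogeneous D)
    (e : ∀ n, ∃ t, t ≠ 0 ∧ ∀ i, eval (pt (s.P n)) (G i) = t * pt (s.P (n + k)) i) : 4 ^ k ≤ D := by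
  classical
  by_contra! hD
  let β := Module.Basis.ofVectorSpace ℚ Qb
  choose C hC using fun j => logHeight_eval_le' fun i => app_hom (β.coord j) (h i)
  let J := (G 0).support.biUnion fun m => (β.repr (coeff m (G 0))).support
  have st : ∀ n, logHeight (s.P (n + k)) ≤ ∑ j ∈ J, |C j| + D * logHeight (s.P n) := fun n => by
    obtain ⟨t, t0, ht⟩ := e n
    obtain ⟨j, hj⟩ : ∃ j, β.coord j t ≠ 0 := by
      by_contra! a
      exact t0 (β.forall_coord_eq_zero_iff.1 a)
    have a : ∀ i, eval (s.P n) (app (β.coord j) (G i)) = β.coord j t * s.P (n + k) i := fun i => by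
      rw [app_eval, ht, pt, mul_comm t, ← Algebra.smul_def, map_smul, smul_eq_mul, mul_comm]
    have jJ : j ∈ J := by
      obtain ⟨m, hm⟩ := ne_zero_iff.1 (show app (β.coord j) (G 0) ≠ 0 from fun z => by
        have := a 0
        rw [z, map_zero] at this
        exact mul_ne_zero hj one_ne_zero this.symm)
      rw [app_coeff] at hm
      exact mem_biUnion.2 ⟨m, mem_support_iff.2 fun z => hm (by rw [z, map_zero]),
        Finsupp.mem_support_iff.2 hm⟩
    have b := hC j (s.P n)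
    simp only [a] at b
    rw [show (fun i => β.coord j t * s.P (n + k) i) = β.coord j t • s.P (n + k) from rfl,
      logHeight_smul_eq_logHeight _ hj] at b
    linarith [le_abs_self (C j), single_le_sum (f := fun j => |C j|) (fun _ _ => abs_nonneg _) jJ]
  set c := ∑ j ∈ J, |C j|
  have c0 : 0 ≤ c := sum_nonneg fun _ _ => abs_nonneg _
  have h0 := logHeight_nonneg (s.P 0)
  have hD' : (D : ℝ) + 1 ≤ 4 ^ k := by exact_mod_cast hD
  have bd : ∀ j, logHeight (s.P (j * k)) ≤ (c + logHeight (s.P 0)) * 4 ^ (j * k) := fun j => by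
    induction j with
    | zero => simpa using c0
    | succ j ih =>
      rw [add_mul j, one_mul, pow_add, ← mul_assoc]
      have a := st (j * k)
      have b : c ≤ (c + logHeight (s.P 0)) * 4 ^ (j * k) :=
        le_trans (by linarith) (le_mul_of_one_le_right (by linarith) (one_le_pow₀ (by norm_num)))
      have := mul_le_mul_of_nonneg_left ih (D.cast_nonneg (α := ℝ))
      have := mul_le_mul_of_nonneg_left hD' (c0.trans b)
      linarith
  obtain ⟨B, -, hB⟩ := s.growth
  obtain ⟨N, hN⟩ := eventually_atTop.1 (hB.and (((tendsto_pow_atTop four_ne_zero).comp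
    (tendsto_natCast_atTop_atTop (R := ℝ))).eventually_gt_atTop (16 * (c + logHeight (s.P 0)))))
  obtain ⟨⟨a, -⟩, b⟩ := hN (N * k) (Nat.le_mul_of_pos_right _ hk)
  have := mul_lt_mul_of_pos_left b (by positivity : (0 : ℝ) < 4 ^ (N * k))
  simp only [Function.comp] at this
  linarith [bd N]

lemma nasymp {h : ℕ → ℝ} (hh : Asymp (fun n => 4 ^ n * (n : ℝ) ^ 4) h) (δ : ℝ) (k : ℤ) (l : ℕ)
    (hδ : 0 < δ) (hl : l ≤ 3) : ¬ Asymp (fun n => δ ^ n * (n : ℝ) ^ l * Real.log n ^ k) h := by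
  rintro ⟨a, a0, b, b0, H⟩
  obtain ⟨c, c0, d, d0, H'⟩ := hh
  have lg : ∀ᶠ n : ℕ in atTop, 1 ≤ Real.log n :=
    (Real.tendsto_log_atTop.comp tendsto_natCast_atTop_atTop).eventually_ge_atTop 1
  have up : ∀ x : ℝ, 1 ≤ x → ∀ k : ℤ, x ^ k ≤ x ^ k.natAbs := fun x hx k => by
    rw [← zpow_natCast]; exact zpow_le_zpow_right₀ hx Int.le_natAbs
  rcases le_or_gt δ 4 with e | e
  · have o := ((Real.isLittleO_pow_log_id_atTop (n := k.natAbs)).comp_tendsto
      (tendsto_natCast_atTop_atTop (R := ℝ))).bound (show 0 < c / (2 * b) by positivity)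
    obtain ⟨n, ⟨⟨h1, h2⟩, h3, h4⟩, h5⟩ := (((H.and H').and (lg.and o)).and
      (eventually_ge_atTop 1)).exists
    have n1 : (1 : ℝ) ≤ n := by exact_mod_cast h5
    simp only [Function.comp, id, Real.norm_natCast] at h4
    have u : Real.log n ^ k ≤ c / (2 * b) * n := (up _ h3 k).trans ((le_abs_self _).trans h4)
    have v : δ ^ n * (n : ℝ) ^ l * Real.log n ^ k ≤ 4 ^ n * (n : ℝ) ^ 3 * (c / (2 * b) * n) := by
      gcongr
    have w := mul_le_mul_of_nonneg_left v b0.le
    have : b * (4 ^ n * (n : ℝ) ^ 3 * (c / (2 * b) * n)) = c * (4 ^ n * (n : ℝ) ^ 4) / 2 := by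
      field_simp
    have : 0 < c * (4 ^ n * (n : ℝ) ^ 4) := by positivity
    linarith [h1.2, h2.1]
  · have o := (isLittleO_pow_const_const_pow_of_one_lt (R := ℝ) (4 + k.natAbs)
      (show 1 < δ / 4 by linarith)).bound (show 0 < a / (2 * d) by positivity)
    obtain ⟨n, ⟨⟨h1, h2⟩, h3, h4⟩, h5⟩ := (((H.and H').and (lg.and o)).and
      (eventually_ge_atTop 1)).exists
    have n1 : (1 : ℝ) ≤ n := by exact_mod_cast h5
    rw [Real.norm_of_nonneg (by positivity), Real.norm_of_nonneg (by positivity), div_pow,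
      pow_add] at h4
    have u : 1 ≤ Real.log n ^ k * (n : ℝ) ^ k.natAbs := by
      have a1 := up _ h3 (-k)
      rw [Int.natAbs_neg, zpow_neg, inv_le_iff_one_le_mul₀' (by positivity)] at a1
      refine a1.trans ?_
      gcongr
      exact Real.log_le_self n.cast_nonneg
    have v : δ ^ n * 1 * Real.log n ^ k ≤ δ ^ n * (n : ℝ) ^ l * Real.log n ^ k := by
      gcongr
      exact one_le_pow₀ n1
    have w := (mul_le_mul_of_nonneg_left v a0.le).trans (h1.1.trans h2.2)
    have w2 := mul_le_mul_of_nonneg_right w (by positivity : (0 : ℝ) ≤ (n : ℝ) ^ k.natAbs)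
    have w3 := mul_le_mul_of_nonneg_left h4 (by positivity : (0 : ℝ) ≤ d * 4 ^ n)
    have w4 := mul_le_mul_of_nonneg_left u (by positivity : (0 : ℝ) ≤ a * δ ^ n)
    have : d * 4 ^ n * (a / (2 * d) * (δ ^ n / 4 ^ n)) = a * δ ^ n / 2 := by field_simp
    have : 0 < a * δ ^ n := by positivity
    nlinarith

theorem result : ∃ (d : ℕ) (F : Fin 4 → MvPolynomial (Fin 4) Qb) (P : ℕ → Fin 4 → ℚ),
    (∀ i, (F i).IsHomogeneous d) ∧ (∀ g, (∀ i, g ∣ F i) → IsUnit g) ∧
    (∀ e (G : MvPolynomial (Fin 4) Qb), G.IsHomogeneous e →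
      (∀ v, (fun i => eval v (F i)) ≠ 0 → eval (fun i => eval v (F i)) G = 0) → G = 0) ∧
    (∀ n, P n ≠ 0 ∧ ∃ t, t ≠ 0 ∧ ∀ i, eval (pt (P n)) (F i) = t * pt (P (n + 1)) i) ∧
    (∀ n, ∃ t, t ≠ 0 ∧ ∀ i, eval (pt (P 0)) (iter F n i) = t * pt (P n) i) ∧
    (∀ e (G : MvPolynomial (Fin 4) Qb), G.IsHomogeneous e →
      (∀ n, eval (pt (P n)) G = 0) → G = 0) ∧
    (∀ k D g (G : Fin 4 → MvPolynomial (Fin 4) Qb), 0 < k → (∀ i, iter F k i = g * G i) →
      (∀ i, (G i).IsHomogeneous D) → 4 ^ k ≤ D) ∧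
    Asymp (fun n => 4 ^ n * (n : ℝ) ^ 4) (fun n => logHeight (P n)) ∧
    ∀ (δ : ℝ) (k : ℤ) (l : ℕ), 0 < δ → l ≤ 3 →
      ¬ Asymp (fun n => δ ^ n * (n : ℝ) ^ l * Real.log n ^ k) fun n => logHeight (P n) := by
  classical
  obtain ⟨s⟩ := exSq
  have ex : ∃ d, ∃ F : Fin 4 → MvPolynomial (Fin 4) Qb, (∀ i, (F i).IsHomogeneous d) ∧
      ∀ n, ∃ t, t ≠ 0 ∧ ∀ i, eval (pt (s.P n)) (F i) = t * pt (s.P (n + 1)) i := by
    obtain ⟨d, F, h, e⟩ := s.step
    refine ⟨d, fun i => map (algebraMap ℚ Qb) (F i), fun i => (h i).map _, fun n => ?_⟩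
    obtain ⟨t, t0, ht⟩ := e n
    refine ⟨algebraMap ℚ Qb t, by simpa using t0, fun i => ?_⟩
    rw [pt, ← map_mul, ← ht, map_eval]
    rfl
  obtain ⟨F, hF, e⟩ := Nat.find_spec ex
  have p1 : ∀ n, pt (s.P n) 0 = 1 := fun n => map_one _
  have cancel : ∀ {k : ℕ} {g : MvPolynomial (Fin 4) Qb} {A G : Fin 4 → MvPolynomial (Fin 4) Qb},
      (∀ i, A i = g * G i) →
      (∀ n, ∃ t, t ≠ 0 ∧ ∀ i, eval (pt (s.P n)) (A i) = t * pt (s.P (n + k)) i) →
      ∀ n, ∃ t, t ≠ 0 ∧ ∀ i, eval (pt (s.P n)) (G i) = t * pt (s.P (n + k)) i :=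
    fun {k g A G} h1 h2 n => by
      obtain ⟨t, t0, ht⟩ := h2 n
      simp only [h1, map_mul] at ht
      have g0 : eval (pt (s.P n)) g ≠ 0 := fun z => t0 (by simpa [z, p1] using (ht 0).symm)
      exact ⟨t / eval (pt (s.P n)) g, div_ne_zero t0 g0, fun i => by
        rw [div_mul_eq_mul_div, ← ht, mul_div_cancel_left₀ _ g0]⟩
  have it : ∀ k n, ∃ t, t ≠ 0 ∧ ∀ i, eval (pt (s.P n)) (iter F k i) = t * pt (s.P (n + k)) i :=
    fun k n => by
      induction k with
      | zero => exact ⟨1, one_ne_zero, fun i => by simp [iter]⟩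
      | succ k ih =>
        obtain ⟨t, t0, ht⟩ := ih
        obtain ⟨u, u0, hu⟩ := e (n + k)
        refine ⟨t ^ Nat.find ex * u, mul_ne_zero (pow_ne_zero _ t0) u0, fun i => ?_⟩
        rw [mul_assoc, ← add_assoc, ← hu, ← sc (hF i), ← funext ht, iter, ← coe_aeval_eq_eval,
          ← coe_aeval_eq_eval]
        simp only [RingHom.coe_coe, ← AlgHom.comp_apply, comp_aeval]
  obtain ⟨B, B0, hB⟩ := s.growth
  have as : Asymp (fun n => 4 ^ n * (n : ℝ) ^ 4) fun n => logHeight (s.P n) :=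
    ⟨_, by norm_num, B, B0, hB⟩
  refine ⟨_, F, s.P, hF, fun g hg => ?_, fun d G hG z => dens s 1 d G hG fun n hn => ?_,
    fun n => ⟨fun z => one_ne_zero (congrFun z 0), e n⟩, fun n => by simpa using it n 0,
    fun d G hG z => dens s 0 d G hG fun n _ => z n,
    fun k D g G hk h1 h2 => deg s hk h2 (cancel h1 (it k)), as, nasymp as⟩
  · choose G hG using hg
    have F0 : F 0 ≠ 0 := fun z => by
      obtain ⟨t, t0, ht⟩ := e 0
      exact t0 (by simpa [z, p1] using (ht 0).symm)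
    obtain ⟨a, b, ab, ha, -⟩ := factor (hG 0 ▸ hF 0) (hG 0 ▸ F0)
    have g0 : g ≠ 0 := left_ne_zero_of_mul (hG 0 ▸ F0)
    have : Nat.find ex ≤ b := Nat.find_min' ex ⟨G, fun i => by
      by_cases z : G i = 0
      · exact z ▸ isHomogeneous_zero _ _ _
      obtain ⟨a', b', ab', ha', hb'⟩ := factor (hG i ▸ hF i) (mul_ne_zero g0 z)
      have := ha.inj_right ha' g0
      exact (show b' = b by omega) ▸ hb', cancel hG e⟩
    obtain rfl : a = 0 := by omega
    rw [← totalDegree_zero_iff_isHomogeneous, totalDegree_eq_zero_iff_eq_C] at ha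
    rw [ha] at g0 ⊢
    exact (Ne.isUnit fun z => g0 (by rw [z, map_zero])).map C
  · obtain ⟨n, rfl⟩ := Nat.exists_eq_add_of_le' hn
    obtain ⟨t, t0, ht⟩ := e n
    have := z (pt (s.P n)) fun z => t0 (by simpa [ht, p1] using congrFun z 0)
    rw [funext ht, sc hG] at this
    exact (mul_eq_zero.1 this).resolve_left (pow_ne_zero _ t0)

end Pool.Agent.Results.MP_a67235_nt.No
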